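import Pool.Agent.Work.MP_8f87b2_t2.TTree
import Pool.Agent.Work.MP_8f87b2_base.Gad9

/-!
MP_8f87b2_co: the `T^2` arcs of the 9-word gadget and of the 20-word absorber, `X = (S') B`, `S' = sT R`, `B = bT R`.
-/

namespace Pool.OddHC

open Finset BinaryTree Equiv

variable {k : ℕ}

theorem eq_of_wd {w' : X k} {t : X k} {l : List Bool} (h : wd t.1 = l) (h' : wd w'.1 = l) : t = w' :=
  X_ext (by rw [h, h'])

/-- the word `X = (S') B` of `T^2 ((R)) = (X)` -/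
def xT (R : BinaryTree Unit) : BinaryTree Unit := w1 .nil (sT R) (bT R)

theorem wd_xT (R : BinaryTree Unit) : wd (xT R) = true :: (wd (sT R) ++ false :: wd (bT R)) := by
  unfold xT
  rw [wd_w1]
  rfl

/-- `((R)) G → G ((S') B)`, `hgt G ≤ hgt R + 2` -/
theorem arc_2 {R G : BinaryTree Unit} (hR : R ≠ .nil) (hG : hgt G ≤ hgt R + 2) {w w' : X k}
    (hw : wd w.1 = true :: true :: (wd R ++ false :: false :: wd G))
    (hw' : wd w'.1 = wd G ++ true :: true :: (wd (sT R) ++ false :: (wd (bT R) ++ [false]))) :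
    TT (TT w) = w' := by
  have hG' : (hgt G : ℤ) ≤ (hgt R : ℤ) + 2 := by exact_mod_cast hG
  have h1 := T2b (w := w) (R := R) (α := [true]) (γ1 := [false]) (γ2 := wd G) hR
    (by rw [hw]; simp)
    (by refine ⟨by simp; positivity, ?_⟩; change (0 : ℤ) ≤ _; simp)
    (by simp) ⟨by simp, by change (0 : ℤ) ≤ _; simp⟩
    ⟨by positivity, by change (0 : ℤ) ≤ _; simp; positivity⟩
    (Ub_wd' (by simp; omega))
  rw [TT_apply, TT_apply]
  apply eq_of_wd h1
  rw [hw']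
  simp

/-- `(R G) H → H (S') B G`, `hgt G ≤ hgt R`, `hgt H ≤ hgt R + 1` -/
theorem arc_1 {R G H : BinaryTree Unit} (hR : R ≠ .nil) (hG : hgt G ≤ hgt R)
    (hH : hgt H ≤ hgt R + 1) {w w' : X k}
    (hw : wd w.1 = true :: (wd R ++ (wd G ++ false :: wd H)))
    (hw' : wd w'.1 = wd H ++ true :: (wd (sT R) ++ false :: (wd (bT R) ++ wd G))) :
    TT (TT w) = w' := by
  have hG' : (hgt G : ℤ) ≤ (hgt R : ℤ) := by exact_mod_cast hG
  have hH' : (hgt H : ℤ) ≤ (hgt R : ℤ) + 1 := by exact_mod_cast hH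
  have h1 := T2b (w := w) (R := R) (α := []) (γ1 := wd G) (γ2 := wd H) hR
    (by rw [hw]; simp)
    (by change (0 : ℤ) ≤ _; simp)
    (by rw [hs_wd]; simp) ((Lb_wd G).mono (by simp)) (Ub_wd' hG') (Ub_wd' (by simp; omega))
  rw [TT_apply, TT_apply]
  apply eq_of_wd h1
  rw [hw']
  simp

/-- `G (R) → (G S') B`, `hgt G ≤ hgt R` -/
theorem arc_1' {R G : BinaryTree Unit} (hR : R ≠ .nil) (hG : hgt G ≤ hgt R) {w w' : X k}
    (hw : wd w.1 = wd G ++ true :: (wd R ++ [false]))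
    (hw' : wd w'.1 = true :: (wd G ++ (wd (sT R) ++ false :: wd (bT R)))) :
    TT (TT w) = w' := by
  have hG' : (hgt G : ℤ) ≤ (hgt R : ℤ) := by exact_mod_cast hG
  have h1 := T2b (w := w) (R := R) (α := wd G) (γ1 := []) (γ2 := []) hR
    (by rw [hw]; simp)
    (Ub_wd' (by rw [hs_wd]; simp; omega))
    (by rw [hs_wd]; simp) (by rw [hs_wd]; change (0 : ℤ) ≤ _; simp)
    (by change (0 : ℤ) ≤ _; positivity) (by rw [hs_wd]; change (0 : ℤ) ≤ _; positivity)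
  rw [TT_apply, TT_apply]
  apply eq_of_wd h1
  rw [hw']
  simp

/-- `R G → B G S'`, `hgt G ≤ hgt R` -/
theorem arc_0 {R G : BinaryTree Unit} (hR : R ≠ .nil) (hG : hgt G ≤ hgt R) {w w' : X k}
    (hw : wd w.1 = wd R ++ wd G) (hw' : wd w'.1 = wd (bT R) ++ (wd G ++ wd (sT R))) :
    TT (TT w) = w' := by
  rw [TT_apply, TT_apply]
  exact eq_of_wd (T2a hR hw hG) hw'

/-- the arcs of the 9-word gadget -/
theorem arcs9 {R : BinaryTree Unit} (hR : R ≠ .nil) {w : ℕ → X k}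
    (hw : ∀ i < 9, (w i).1 = w9 R (xT R) i) :
    TT (TT (w 3)) = w 6 ∧ TT (TT (w 4)) = w 7 ∧ TT (TT (w 5)) = w 8 := by
  refine ⟨?_, ?_, ?_⟩
  · refine arc_2 (G := .nil) hR (by change 0 ≤ _; omega) ?_ ?_
    · rw [hw 3 (by norm_num)]; simp [w9, wd_w1, wd]
    · rw [hw 6 (by norm_num)]; simp [w9, wd_w1, wd, wd_xT]
  · refine arc_1 (G := w1 .nil .nil .nil) (H := .nil) hR ?_ (by change 0 ≤ _; omega) ?_ ?_
    · cases R with
      | nil => exact absurd rfl hR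
      | node _ P Q =>
        change 1 ≤ max _ _
        omega
    · rw [hw 4 (by norm_num)]; simp [w9, wd_w1, wd]
    · rw [hw 7 (by norm_num)]; simp [w9, wd_w1, wd, wd_xT]
  · refine arc_1 (G := .nil) (H := w1 .nil .nil .nil) hR (by change 0 ≤ _; omega) ?_ ?_ ?_
    · change 1 ≤ _
      omega
    · rw [hw 5 (by norm_num)]; simp [w9, wd_w1, wd]
    · rw [hw 8 (by norm_num)]; simp [w9, wd_w1, wd, wd_xT]

/-- the arcs of the 20-word absorber: `hgt Q + 2 ≤ hgt R` -/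
theorem arcs20 {R Q : BinaryTree Unit} (h : hgt Q + 2 ≤ hgt R) {w : ℕ → X k}
    (hw : ∀ i < 10, (w i).1 = bw .nil Q .nil .nil R i)
    (hw' : ∀ i < 10, (w (10 + i)).1 = bw .nil Q .nil (sT R) (bT R) i) :
    TT (TT (w 0)) = w 10 ∧ TT (TT (w 1)) = w 11 ∧ TT (TT (w 3)) = w 12 ∧
      TT (TT (w 6)) = w 15 ∧ TT (TT (w 8)) = w 14 ∧ TT (TT (w 9)) = w 17 := by
  have hR : R ≠ .nil := by
    rintro rfl
    change hgt Q + 2 ≤ 0 at h
    omega
  have e1 : hgt (w1 .nil (w1 .nil Q .nil) .nil) = hgt Q + 2 := by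
    change max (max (hgt Q + 1) 0 + 1) 0 = _
    omega
  have e2 : hgt (w1 .nil .nil (w1 Q .nil .nil)) ≤ hgt Q + 1 := by
    change max (0 + 1) (hgt (app Q (w1 .nil .nil .nil))) ≤ _
    rw [hgt_app]
    change max (0 + 1) (max (hgt Q) (max (0 + 1) 0)) ≤ _
    omega
  have e3 : hgt (w1 .nil .nil Q) ≤ hgt Q + 1 := by
    change max (0 + 1) (hgt Q) ≤ _
    omega
  have e4 : hgt (w1 Q .nil .nil) ≤ hgt Q + 1 := by
    change hgt (app Q _) ≤ _
    rw [hgt_app]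
    change max (hgt Q) (max (0 + 1) 0) ≤ _
    omega
  have e5 : hgt (w1 .nil Q .nil) = hgt Q + 1 := by
    change max (hgt Q + 1) 0 = _
    omega
  refine ⟨?_, ?_, ?_, ?_, ?_, ?_⟩
  · refine arc_0 (R := R) (G := w1 .nil (w1 .nil Q .nil) .nil) hR (by omega) ?_ ?_
    · rw [hw 0 (by norm_num)]; simp [bw, wd_w1, wd]
    · rw [hw' 0 (by norm_num)]; simp [bw, wd_w1, wd]
  · refine arc_0 (R := R) (G := w1 .nil .nil (w1 Q .nil .nil)) hR (by omega) ?_ ?_
    · rw [hw 1 (by norm_num)]; simp [bw, wd_w1, wd]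
    · rw [hw' 1 (by norm_num)]; simp [bw, wd_w1, wd]
  · refine arc_1 (R := R) (G := w1 .nil .nil Q) (H := .nil) hR (by omega)
      (by change 0 ≤ _; omega) ?_ ?_
    · rw [hw 3 (by norm_num)]; simp [bw, wd_w1, wd]
    · rw [hw' 2 (by norm_num)]; simp [bw, wd_w1, wd]
  · refine arc_1 (R := R) (G := .nil) (H := w1 .nil Q .nil) hR (by change 0 ≤ _; omega)
      (by omega) ?_ ?_
    · rw [hw 6 (by norm_num)]; simp [bw, wd_w1, wd]
    · rw [hw' 5 (by norm_num)]; simp [bw, wd_w1, wd]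
  · refine arc_1' (R := R) (G := w1 Q .nil .nil) hR (by omega) ?_ ?_
    · rw [hw 8 (by norm_num)]; simp [bw, wd_w1, wd]
    · rw [hw' 4 (by norm_num)]; simp [bw, wd_w1, wd]
  · refine arc_2 (R := R) (G := Q) hR (by omega) ?_ ?_
    · rw [hw 9 (by norm_num)]; simp [bw, wd_w1, wd]
    · rw [hw' 7 (by norm_num)]; simp [bw, wd_w1, wd]

/-- first returns for a `T^2` arc -/
theorem fr_T2 {Γ : Type} [DecidableEq Γ] {gad : Γ → DG k}
    (hdis : ∀ g h, g ≠ h → ∀ w ∈ (gad g).B, w ∉ (gad h).B) {g : Γ} {s : Finset Γ}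
    {π : Perm (X k)} (hb : Built gad s π) (hg : g ∉ s) {u v : X k} (hu : u ∈ (gad g).B)
    (hv : TT (TT u) = v) (hB : TT u ∉ (gad g).B) (hin : ∀ h ∈ s, TT u ∉ (gad h).B) :
    FR (TT * π) (gad g).B u v := by
  apply fr_of_path hdis hb hg hu 1
  · rw [pow_succ, pow_one, Perm.mul_apply]
    exact hv
  · intro i hi
    obtain rfl : i = 0 := by omega
    rw [zero_add, pow_one]
    exact hB
  · intro i hi
    obtain rfl : i = 0 := by omega
    rw [zero_add, pow_one]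
    exact hin

end Pool.OddHC
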