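import Pool.Agent.Work.MP_8f87b2_base.Frame

/-!
MP_8f87b2_co: `T` and `T^2` on words given as lists: `Z 1 V ↦ V⁻ 0 Z⁻` (`Z 1` ends at the first maximum) and
`Z 1 X 0 Y ↦ Y 1 Z 0 X` (`0` = first return to the height `0`).
-/

namespace Pool.OddHC

open Finset BinaryTree Equiv

/-- step -/
def sg (b : Bool) : ℤ := if b = true then 1 else -1

/-- total height of a list -/
def hs : List Bool → ℤ
  | [] => 0
  | b :: l => sg b + hs l

/-- all prefixes have height `≤ c` -/
def Ub : ℤ → List Bool → Prop
  | c, [] => 0 ≤ c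
  | c, b :: l => 0 ≤ c ∧ Ub (c - sg b) l

/-- all prefixes have height `≥ -c` -/
def Lb : ℤ → List Bool → Prop
  | c, [] => 0 ≤ c
  | c, b :: l => 0 ≤ c ∧ Lb (c + sg b) l

@[simp] theorem sg_true : sg true = 1 := rfl
@[simp] theorem sg_false : sg false = -1 := rfl

theorem sg_not (b : Bool) : sg (!b) = -sg b := by cases b <;> rfl

@[simp] theorem hs_nil : hs [] = 0 := rfl
@[simp] theorem hs_cons (b : Bool) (l : List Bool) : hs (b :: l) = sg b + hs l := rfl

theorem hs_append (l l' : List Bool) : hs (l ++ l') = hs l + hs l' := by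
  induction l with
  | nil => simp
  | cons b l ih => rw [List.cons_append, hs_cons, hs_cons, ih, add_assoc]

theorem map_nn (l : List Bool) : (l.map not).map not = l := by
  induction l with
  | nil => rfl
  | cons b l ih => rw [List.map_cons, List.map_cons, ih, Bool.not_not]

theorem hs_not (l : List Bool) : hs (l.map not) = -hs l := by
  induction l with
  | nil => rfl
  | cons b l ih => rw [List.map_cons, hs_cons, hs_cons, ih, sg_not]; ring

theorem Ub.nonneg {c : ℤ} {l : List Bool} (h : Ub c l) : 0 ≤ c := by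
  cases l with
  | nil => exact h
  | cons b l => exact h.1

theorem Lb.nonneg {c : ℤ} {l : List Bool} (h : Lb c l) : 0 ≤ c := by
  cases l with
  | nil => exact h
  | cons b l => exact h.1

theorem Ub.mono {l : List Bool} : ∀ {c c' : ℤ}, Ub c l → c ≤ c' → Ub c' l := by
  induction l with
  | nil => intro c c' h hc; exact le_trans h hc
  | cons b l ih =>
    intro c c' h hc
    exact ⟨le_trans h.1 hc, ih h.2 (by linarith)⟩

theorem Lb.mono {l : List Bool} : ∀ {c c' : ℤ}, Lb c l → c ≤ c' → Lb c' l := by
  induction l with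
  | nil => intro c c' h hc; exact le_trans h hc
  | cons b l ih =>
    intro c c' h hc
    exact ⟨le_trans h.1 hc, ih h.2 (by linarith)⟩

theorem Ub.le {l : List Bool} : ∀ {c : ℤ}, Ub c l → hs l ≤ c := by
  induction l with
  | nil => intro c h; exact h
  | cons b l ih =>
    intro c h
    have := ih h.2
    rw [hs_cons]
    linarith

theorem Lb.le {l : List Bool} : ∀ {c : ℤ}, Lb c l → -c ≤ hs l := by
  induction l with
  | nil => intro c h; rw [hs_nil]; have : (0 : ℤ) ≤ c := h; linarith
  | cons b l ih =>
    intro c h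
    have := ih h.2
    rw [hs_cons]
    linarith

theorem Ub_append (l' : List Bool) : ∀ (l : List Bool) (c : ℤ), Ub c (l ++ l') ↔
    Ub c l ∧ Ub (c - hs l) l' := by
  intro l
  induction l with
  | nil =>
    intro c
    rw [List.nil_append, hs_nil, sub_zero]
    exact ⟨fun h => ⟨h.nonneg, h⟩, fun h => h.2⟩
  | cons b l ih =>
    intro c
    rw [List.cons_append]
    change (0 ≤ c ∧ Ub (c - sg b) (l ++ l')) ↔ (0 ≤ c ∧ Ub (c - sg b) l) ∧ _
    rw [ih, hs_cons]
    have : c - sg b - hs l = c - (sg b + hs l) := by ring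
    rw [this]
    tauto

theorem Lb_append (l' : List Bool) : ∀ (l : List Bool) (c : ℤ), Lb c (l ++ l') ↔
    Lb c l ∧ Lb (c + hs l) l' := by
  intro l
  induction l with
  | nil =>
    intro c
    rw [List.nil_append, hs_nil, add_zero]
    exact ⟨fun h => ⟨h.nonneg, h⟩, fun h => h.2⟩
  | cons b l ih =>
    intro c
    rw [List.cons_append]
    change (0 ≤ c ∧ Lb (c + sg b) (l ++ l')) ↔ (0 ≤ c ∧ Lb (c + sg b) l) ∧ _
    rw [ih, hs_cons]
    have : c + sg b + hs l = c + (sg b + hs l) := by ring
    rw [this]
    tauto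

theorem Lb_not : ∀ (l : List Bool) (c : ℤ), Lb c (l.map not) ↔ Ub c l := by
  intro l
  induction l with
  | nil => intro c; exact Iff.rfl
  | cons b l ih =>
    intro c
    rw [List.map_cons]
    change (0 ≤ c ∧ Lb (c + sg (!b)) (l.map not)) ↔ (0 ≤ c ∧ Ub (c - sg b) l)
    rw [ih, sg_not]
    have : c + -sg b = c - sg b := by ring
    rw [this]

theorem Ub_not : ∀ (l : List Bool) (c : ℤ), Ub c (l.map not) ↔ Lb c l := by
  intro l
  induction l with
  | nil => intro c; exact Iff.rfl
  | cons b l ih =>
    intro c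
    rw [List.map_cons]
    change (0 ≤ c ∧ Ub (c - sg (!b)) (l.map not)) ↔ (0 ≤ c ∧ Lb (c + sg b) l)
    rw [ih, sg_not]
    have : c - -sg b = c + sg b := by ring
    rw [this]

/-- trees -/
theorem hs_wd (t : BinaryTree Unit) : hs (wd t) = 0 := by
  induction t with
  | nil => rfl
  | node _ A B ihA ihB =>
    change sg true + hs (wd A ++ false :: wd B) = 0
    rw [hs_append, hs_cons, ihA, ihB]
    simp

theorem Lb_wd (t : BinaryTree Unit) : Lb 0 (wd t) := by
  induction t with
  | nil => exact le_rfl
  | node _ A B ihA ihB =>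
    refine ⟨le_rfl, ?_⟩
    rw [Lb_append]
    refine ⟨ihA.mono (by simp), ?_⟩
    rw [hs_wd]
    refine ⟨by simp, ?_⟩
    exact ihB.mono (by simp)

/-- first passage below the level `-c` -/
theorem first_passage : ∀ (l : List Bool) (c : ℤ), 0 ≤ c → c + hs l < 0 →
    ∃ A B, l = A ++ false :: B ∧ c + hs A = 0 ∧ Lb c A := by
  intro l
  induction l with
  | nil =>
    intro c hc h
    rw [hs_nil] at h
    omega
  | cons b l ih =>
    intro c hc h
    rw [hs_cons] at h
    cases b with
    | true =>
      rw [sg_true] at h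
      obtain ⟨A, B, h1, h2, h3⟩ := ih (c + 1) (by omega) (by omega)
      refine ⟨true :: A, B, by rw [h1, List.cons_append], ?_, hc, ?_⟩
      · rw [hs_cons, sg_true]
        omega
      · rw [sg_true]
        exact h3
    | false =>
      rw [sg_false] at h
      rcases eq_or_lt_of_le hc with h0 | hp
      · refine ⟨[], l, rfl, by rw [hs_nil]; omega, ?_⟩
        exact hc
      · obtain ⟨A, B, h1, h2, h3⟩ := ih (c - 1) (by omega) (by omega)
        refine ⟨false :: A, B, by rw [h1, List.cons_append], ?_, hc, ?_⟩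
        · rw [hs_cons, sg_false]
          omega
        · rw [sg_false]
          exact h3

/-- every Dyck list is the list of a tree -/
theorem exists_wd : ∀ (n : ℕ) (l : List Bool), l.length = n → hs l = 0 → Lb 0 l →
    ∃ t : BinaryTree Unit, wd t = l := by
  intro n
  induction n using Nat.strong_induction_on with
  | _ n ih =>
    intro l hl h0 hn
    cases l with
    | nil => exact ⟨.nil, rfl⟩
    | cons b l =>
      cases b with
      | false =>
        exfalso
        have := hn.2.nonneg
        rw [sg_false] at this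
        omega
      | true =>
        rw [hs_cons, sg_true] at h0
        obtain ⟨A, B, h1, h2, h3⟩ := first_passage l 0 le_rfl (by omega)
        have hA : hs A = 0 := by omega
        have hl' : A.length + B.length + 2 = n := by
          rw [← hl, h1, List.length_cons, List.length_append, List.length_cons]
          omega
        have hB : hs B = 0 := by
          rw [h1, hs_append, hs_cons, sg_false, hA] at h0
          omega
        have hBn : Lb 0 B := by
          have h4 := hn.2
          rw [h1, Lb_append, sg_true, hA] at h4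
          have h5 := h4.2.2
          rw [sg_false] at h5
          exact h5.mono (by omega)
        obtain ⟨tA, hA'⟩ := ih A.length (by omega) A rfl hA h3
        obtain ⟨tB, hB'⟩ := ih B.length (by omega) B rfl hB hBn
        refine ⟨.node () tA tB, ?_⟩
        change true :: (wd tA ++ false :: wd tB) = _
        rw [hA', hB', h1]

variable {k : ℕ}

theorem wd_len (w : X k) : (wd w.1).length = 2 * k := by rw [wd_length, X_num]

theorem X_ext {w u : X k} (h : wd w.1 = wd u.1) : w = u := Subtype.ext (wd_ext h)

/-- criterion for `T` -/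
theorem TF_crit {w t : X k} {Z V : List Bool} (hw : wd w.1 = Z ++ true :: V)
    (ht : wd t.1 = V.map not ++ false :: Z.map not) :
    TF w = t ∧ Vo w = ((Z.length + 1 : ℕ) : ZMod (2 * k + 1)) := by
  have h1 : (cw w.1).rotate (Z.length + 1) = sl t.1 := by
    unfold cw sl
    rw [hw, ht]
    have e1 : (true :: (Z ++ true :: V)).map not = (false :: Z.map not) ++ (false :: V.map not) := by
      simp
    rw [e1]
    have e2 : Z.length + 1 = (false :: Z.map not).length := by simp
    rw [e2, List.rotate_append_length_eq]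
    simp
  have h2 := TF_spec w 0
  rw [← st_rotate (cw w.1) (cw_len w) 0 (Z.length + 1), h1] at h2
  have h3 := io_inj (k := k) (t := TF w) (t' := t) h2
  refine ⟨h3.1, ?_⟩
  have h4 := h3.2
  rw [zero_add, zero_add] at h4
  exact h4

/-- `T` ON LISTS -/
theorem TF_list {w : X k} {Z V : List Bool} (hw : wd w.1 = Z ++ true :: V)
    (hZ : Ub (hs Z) Z) (hV : Ub 0 V) :
    wd (TF w).1 = V.map not ++ false :: Z.map not ∧
      Vo w = ((Z.length + 1 : ℕ) : ZMod (2 * k + 1)) := by
  have h0 := hs_wd w.1
  have hL := Lb_wd w.1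
  rw [hw] at h0 hL
  rw [hs_append, hs_cons, sg_true] at h0
  rw [Lb_append] at hL
  obtain ⟨t, ht⟩ := exists_wd _ (V.map not ++ false :: Z.map not) rfl (by
      rw [hs_append, hs_cons, hs_not, hs_not, sg_false]
      omega) (by
      rw [Lb_append, hs_not, Lb_not]
      refine ⟨hV, ?_, ?_⟩
      · have := hZ.nonneg
        omega
      · rw [sg_false, Lb_not]
        exact hZ.mono (by omega))
  have hn : t.numNodes = k := by
    have h1 := wd_len w
    have h2 := wd_length t
    rw [ht, List.length_append, List.length_cons, List.length_map, List.length_map] at h2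
    rw [hw, List.length_append, List.length_cons] at h1
    omega
  have h3 := TF_crit (w := w) (t := ⟨t, mem_treesOfNumNodesEq.2 hn⟩) hw ht
  rw [h3.1]
  exact ⟨ht, h3.2⟩

/-- `T^2` ON LISTS -/
theorem T2_list {w : X k} {Z X' Y : List Bool} (hw : wd w.1 = Z ++ true :: (X' ++ false :: Y))
    (hZ : Ub (hs Z) Z) (hX : Ub 0 X') (hX0 : hs Z + hs X' = 0) (hXl : Lb (hs Z) X')
    (hY : Ub (hs Z + 1) Y) :
    wd (TF (TF w)).1 = Y ++ true :: (Z ++ false :: X') ∧
      Vo (TF w) = ((X'.length + 1 : ℕ) : ZMod (2 * k + 1)) := by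
  have h0 := hs_wd w.1
  have hL := Lb_wd w.1
  rw [hw, hs_append, hs_cons, sg_true, hs_append, hs_cons, sg_false] at h0
  rw [hw, Lb_append] at hL
  have hL1 := hL.2.2
  rw [sg_true, Lb_append] at hL1
  have hL2 := hL1.2.2
  rw [sg_false] at hL2
  have hz := hZ.nonneg
  have hV : Ub 0 (X' ++ false :: Y) := by
    rw [Ub_append]
    refine ⟨hX, ?_, ?_⟩
    · omega
    · rw [sg_false]
      exact hY.mono (by omega)
  obtain ⟨h1, -⟩ := TF_list hw hZ hV
  have e1 : wd (TF w).1 = X'.map not ++ true :: (Y.map not ++ false :: Z.map not) := by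
    rw [h1]
    simp
  have hZ2 : Ub (hs (X'.map not)) (X'.map not) := by
    rw [Ub_not, hs_not]
    exact hXl.mono (by omega)
  have hV2 : Ub 0 (Y.map not ++ false :: Z.map not) := by
    rw [Ub_append, hs_not, Ub_not]
    refine ⟨hL2.mono (by omega), ?_, ?_⟩
    · omega
    · rw [sg_false, Ub_not]
      exact hL.1.mono (by omega)
  obtain ⟨h2, h3⟩ := TF_list e1 hZ2 hV2
  rw [List.length_map] at h3
  refine ⟨?_, h3⟩
  rw [h2, List.map_append, List.map_cons, map_nn, map_nn, map_nn, Bool.not_false]
  simp

end Pool.OddHC
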