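import Pool.Agent.Work.MP_8f87b2_t2.TList

/-!
MP_8f87b2_co: `T^2` on words which contain the tall word `R` in a context. `R = B1 (S) B`, `(S)` the first tallest
component, `S = Z' 1 X'` at the first maximum; `bT R = B`, `sT R = (B1 (Z') X')` (the word `1 Z 0 X` of `R = Z 1 X 0 B`).
-/

namespace Pool.OddHC

open Finset BinaryTree Equiv

/-- height of a tree -/
def hgt : BinaryTree Unit → ℕ
  | .nil => 0
  | .node _ A B => max (hgt A + 1) (hgt B)

theorem hgt_node (A B : BinaryTree Unit) : hgt (A △ B) = max (hgt A + 1) (hgt B) := rfl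

theorem hgt_app (A B : BinaryTree Unit) : hgt (app A B) = max (hgt A) (hgt B) := by
  induction A with
  | nil =>
    change hgt B = max 0 (hgt B)
    omega
  | node _ P Q _ ihQ =>
    change max (hgt P + 1) (hgt (app Q B)) = max (max (hgt P + 1) (hgt Q)) (hgt B)
    rw [ihQ]
    omega

theorem Ub_wd (t : BinaryTree Unit) : Ub (hgt t : ℤ) (wd t) := by
  induction t with
  | nil => exact le_rfl
  | node _ A B ihA ihB =>
    have h1 : ((hgt A + 1 : ℕ) : ℤ) ≤ (hgt (A △ B) : ℤ) := by
      rw [hgt_node]
      exact_mod_cast le_max_left _ _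
    have h2 : (hgt B : ℤ) ≤ (hgt (A △ B) : ℤ) := by
      rw [hgt_node]
      exact_mod_cast le_max_right _ _
    push_cast at h1
    refine ⟨by positivity, ?_⟩
    rw [sg_true, Ub_append, hs_wd]
    refine ⟨ihA.mono (by linarith), by linarith, ?_⟩
    rw [sg_false]
    exact ihB.mono (by linarith)

theorem Ub_wd' {t : BinaryTree Unit} {c : ℤ} (h : (hgt t : ℤ) ≤ c) : Ub c (wd t) := (Ub_wd t).mono h

/-- the part after the first tallest component -/
def bT : BinaryTree Unit → BinaryTree Unit
  | .nil => .nil
  | .node _ A C => if hgt C ≤ hgt A + 1 then C else bT C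

/-- the word `1 Z 0 X` of `R = Z 1 X 0 B` -/
def sT : BinaryTree Unit → BinaryTree Unit
  | .nil => .nil
  | .node _ A C =>
    if hgt C ≤ hgt A + 1 then (match A with
      | .nil => .nil △ .nil
      | .node _ _ _ => sT A △ bT A)
    else (match sT C with
      | .nil => .nil
      | .node _ P Q => (A △ P) △ Q)

/-- decomposition at the first maximum -/
theorem fm_dec : ∀ R : BinaryTree Unit, R ≠ .nil → ∃ Z X' : List Bool,
    wd R = Z ++ true :: (X' ++ false :: wd (bT R)) ∧ wd (sT R) = true :: (Z ++ false :: X') ∧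
      hs Z = (hgt R : ℤ) - 1 ∧ Ub (hs Z) Z ∧ Ub 0 X' ∧ hs Z + hs X' = 0 ∧ Lb (hs Z) X' := by
  intro R
  induction R with
  | nil => intro h; exact absurd rfl h
  | node _ A C ihA ihC =>
    intro _
    by_cases h : hgt C ≤ hgt A + 1
    · have e1 : bT (A △ C) = C := by
        change (if hgt C ≤ hgt A + 1 then C else bT C) = C
        rw [if_pos h]
      have e3 : hgt (A △ C) = hgt A + 1 := by
        rw [hgt_node]
        omega
      cases A with
      | nil =>
        refine ⟨[], [], ?_, ?_, ?_, ?_, ?_, ?_, ?_⟩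
        · rw [e1]; rfl
        · change wd (if hgt C ≤ hgt (.nil : BinaryTree Unit) + 1 then _ else _) = _
          rw [if_pos h]
          rfl
        · rw [e3]; rfl
        · exact le_rfl
        · exact le_rfl
        · rfl
        · exact le_rfl
      | node u P Q =>
        obtain rfl : u = () := rfl
        obtain ⟨Z, X', h1, h2, h3, h4, h5, h6, h7⟩ := ihA (by simp)
        have hZ0 := h4.nonneg
        refine ⟨true :: Z, X' ++ false :: wd (bT (P △ Q)), ?_, ?_, ?_, ?_, ?_, ?_, ?_⟩
        · rw [e1, wd_node, h1]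
          simp
        · change wd (if hgt C ≤ hgt (P △ Q) + 1 then sT (P △ Q) △ bT (P △ Q) else _) = _
          rw [if_pos h, wd_node, h2]
          simp
        · rw [e3, hs_cons, sg_true, h3]
          push_cast
          ring
        · rw [hs_cons, sg_true]
          refine ⟨by omega, ?_⟩
          rw [sg_true]
          exact h4.mono (by omega)
        · rw [Ub_append]
          refine ⟨h5, by omega, ?_⟩
          rw [sg_false]
          apply Ub_wd'
          have h8 : hgt (bT (P △ Q)) ≤ hgt (P △ Q) := by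
            clear h1 h2 h3 h4 h5 h6 h7 hZ0 ihA ihC e1 e3 h
            generalize (P △ Q : BinaryTree Unit) = t
            induction t with
            | nil => exact le_rfl
            | node _ A' C' _ ihC' =>
              change hgt (if hgt C' ≤ hgt A' + 1 then C' else bT C') ≤ max _ _
              split_ifs <;> omega
          have h9 : (hgt (bT (P △ Q)) : ℤ) ≤ (hgt (P △ Q) : ℤ) := by exact_mod_cast h8
          omega
        · rw [hs_append, hs_cons, hs_cons, sg_true, sg_false, hs_wd]
          omega
        · rw [hs_cons, sg_true, Lb_append]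
          refine ⟨h7.mono (by omega), by omega, ?_⟩
          rw [sg_false]
          exact (Lb_wd _).mono (by omega)
    · have e1 : bT (A △ C) = bT C := by
        change (if hgt C ≤ hgt A + 1 then C else bT C) = bT C
        rw [if_neg h]
      have e3 : hgt (A △ C) = hgt C := by
        rw [hgt_node]
        omega
      have hC : C ≠ .nil := by
        rintro rfl
        apply h
        change 0 ≤ _
        omega
      obtain ⟨Z, X', h1, h2, h3, h4, h5, h6, h7⟩ := ihC hC
      have hZ0 := h4.nonneg
      refine ⟨true :: (wd A ++ false :: Z), X', ?_, ?_, ?_, ?_, h5, ?_, ?_⟩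
      · rw [e1, wd_node, h1]
        simp
      · change wd (if hgt C ≤ hgt A + 1 then _ else (match sT C with
          | .nil => .nil
          | .node _ P Q => (A △ P) △ Q)) = _
        rw [if_neg h]
        cases hs' : sT C with
        | nil =>
          rw [hs'] at h2
          simp [wd] at h2
        | node _ P Q =>
          rw [hs'] at h2
          change true :: (wd P ++ false :: wd Q) = _ at h2
          rw [List.cons.injEq] at h2
          change true :: (true :: (wd A ++ false :: wd P) ++ false :: wd Q) = _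
          rw [List.cons_append, List.append_assoc, List.cons_append, h2.2]
          simp
      · rw [e3, hs_cons, hs_append, hs_cons, hs_wd, h3, sg_true, sg_false]
        ring
      · have e4 : hs (true :: (wd A ++ false :: Z)) = hs Z := by
          rw [hs_cons, hs_append, hs_cons, hs_wd, sg_true, sg_false]
          ring
        have h8 : (hgt A : ℤ) + 1 < (hgt C : ℤ) := by
          push Not at h
          exact_mod_cast h
        rw [e4]
        refine ⟨hZ0, ?_⟩
        rw [sg_true, Ub_append, hs_wd]
        refine ⟨Ub_wd' (by omega), by omega, ?_⟩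
        rw [sg_false]
        exact h4.mono (by omega)
      · rw [hs_cons, hs_append, hs_cons, hs_wd, sg_true, sg_false]
        omega
      · rw [hs_cons, hs_append, hs_cons, hs_wd, sg_true, sg_false]
        exact h7.mono (by omega)

theorem hgt_bT (t : BinaryTree Unit) : hgt (bT t) ≤ hgt t := by
  induction t with
  | nil => exact le_rfl
  | node _ A' C' _ ihC' =>
    change hgt (if hgt C' ≤ hgt A' + 1 then C' else bT C') ≤ max _ _
    split_ifs <;> omega

variable {k : ℕ}

/-- `T^2 (R G) = B G S'` -/
theorem T2a {w : X k} {R G : BinaryTree Unit} (hR : R ≠ .nil) (hw : wd w.1 = wd R ++ wd G)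
    (hG : hgt G ≤ hgt R) : wd (TF (TF w)).1 = wd (bT R) ++ (wd G ++ wd (sT R)) := by
  obtain ⟨Z, X', h1, h2, h3, h4, h5, h6, h7⟩ := fm_dec R hR
  have hG' : (hgt G : ℤ) ≤ (hgt R : ℤ) := by exact_mod_cast hG
  have hB' : (hgt (bT R) : ℤ) ≤ (hgt R : ℤ) := by exact_mod_cast hgt_bT R
  have h8 := T2_list (w := w) (Z := Z) (X' := X') (Y := wd (bT R) ++ wd G)
    (by rw [hw, h1]; simp) h4 h5 h6 h7 (by
      rw [Ub_append, hs_wd]
      exact ⟨Ub_wd' (by omega), Ub_wd' (by omega)⟩)
  rw [h8.1, h2]
  simp

/-- `T^2 (α 1 R γ1 0 γ2) = γ2 1 α S' 0 B γ1` -/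
theorem T2b {w : X k} {R : BinaryTree Unit} {α γ1 γ2 : List Bool} (hR : R ≠ .nil)
    (hw : wd w.1 = α ++ true :: (wd R ++ (γ1 ++ false :: γ2)))
    (hα : Ub (hs α + hgt R) α) (h0 : hs α + hs γ1 = 0) (hγl : Lb (hs α) γ1)
    (hγu : Ub (hgt R : ℤ) γ1) (hγ2 : Ub (hs α + 1 + hgt R) γ2) :
    wd (TF (TF w)).1 = γ2 ++ true :: (α ++ (wd (sT R) ++ false :: (wd (bT R) ++ γ1))) := by
  obtain ⟨Z, X', h1, h2, h3, h4, h5, h6, h7⟩ := fm_dec R hR
  have hB' : (hgt (bT R) : ℤ) ≤ (hgt R : ℤ) := by exact_mod_cast hgt_bT R
  have hR1 : (1 : ℤ) ≤ (hgt R : ℤ) := by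
    have := h4.nonneg
    omega
  have ha := hγl.nonneg
  have h8 := T2_list (w := w) (Z := α ++ true :: Z) (X' := X' ++ false :: (wd (bT R) ++ γ1))
    (Y := γ2) (by rw [hw, h1]; simp)
    (by
      rw [hs_append, hs_cons, sg_true, Ub_append]
      refine ⟨hα.mono (by omega), by omega, ?_⟩
      rw [sg_true]
      exact h4.mono (by omega))
    (by
      rw [Ub_append]
      refine ⟨h5, by omega, ?_⟩
      rw [sg_false, Ub_append, hs_wd]
      exact ⟨Ub_wd' (by omega), hγu.mono (by omega)⟩)
    (by
      rw [hs_append, hs_append, hs_cons, hs_cons, hs_append, hs_wd, sg_true, sg_false]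
      omega)
    (by
      rw [hs_append, hs_cons, sg_true, Lb_append]
      refine ⟨h7.mono (by omega), by omega, ?_⟩
      rw [sg_false, Lb_append, hs_wd]
      exact ⟨(Lb_wd _).mono (by omega), hγl.mono (by omega)⟩)
    (hγ2.mono (by rw [hs_append, hs_cons, sg_true]; omega))
  rw [h8.1, h2]
  simp

end Pool.OddHC
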